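import Pool.Agent.W902.C6.Stm2
import Pool.Agent.W589.C6.Cnt

/-!
Project C6, part LIM4: the limits for the words with at least four points of each line.
-/

set_option autoImplicit false

open Pool.Agent.H800R3 Pool.Agent.W902.C6 Filter

namespace Pool.Agent.W557.C6.Lim4

lemma fin_w (i : ℕ) : {l : List Lt | NZ l ∧ weight l = i}.Finite := by
  obtain ⟨W, hW, -, -⟩ := Pool.Agent.W589.C6.Cnt.main i
  refine (W.finite_toSet).subset ?_
  intro l hl
  exact (hW l).2 hl

lemma al_pos : 0 < al := lt_of_lt_of_le (by norm_num) Pool.Agent.W589.C6.Cnt.two_le_al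

lemma upper (i : ℕ) : cntX XU4 i ≤ cntX XU i := by
  unfold cntX
  refine Set.ncard_le_ncard ?_ ((fin_w i).subset ?_)
  · intro l hl
    exact ⟨hl.1.1, hl.2⟩
  · intro l hl
    exact ⟨hl.1.1, hl.2⟩

lemma lower (i : ℕ) : cntX XU i ≤ cntX XU4 i +
    ({l : List Lt | NZ l ∧ l.countP (fun x => x.1) < 4 ∧ weight l = i}.ncard +
    {l : List Lt | NZ l ∧ l.countP (fun x => x.2) < 4 ∧ weight l = i}.ncard) := by
  unfold cntX
  have hf1 : {l : List Lt | NZ l ∧ l.countP (fun x => x.1) < 4 ∧ weight l = i}.Finite :=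
    (fin_w i).subset (fun l hl => ⟨hl.1, hl.2.2⟩)
  have hf2 : {l : List Lt | NZ l ∧ l.countP (fun x => x.2) < 4 ∧ weight l = i}.Finite :=
    (fin_w i).subset (fun l hl => ⟨hl.1, hl.2.2⟩)
  have hf3 : {l : List Lt | l ∈ XU4 ∧ weight l = i}.Finite :=
    (fin_w i).subset (fun l hl => ⟨hl.1.1.1, hl.2⟩)
  refine le_trans (Set.ncard_le_ncard (t := {l : List Lt | l ∈ XU4 ∧ weight l = i} ∪
    ({l : List Lt | NZ l ∧ l.countP (fun x => x.1) < 4 ∧ weight l = i} ∪
    {l : List Lt | NZ l ∧ l.countP (fun x => x.2) < 4 ∧ weight l = i})) ?_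
    (hf3.union (hf1.union hf2))) ?_
  · intro l hl
    by_cases h1 : l.countP (fun x => x.1) < 4
    · exact Or.inr (Or.inl ⟨hl.1.1, h1, hl.2⟩)
    · by_cases h2 : l.countP (fun x => x.2) < 4
      · exact Or.inr (Or.inr ⟨hl.1.1, h2, hl.2⟩)
      · exact Or.inl ⟨⟨hl.1, not_lt.1 h1, not_lt.1 h2⟩, hl.2⟩
  · refine le_trans (Set.ncard_union_le _ _) ?_
    exact Nat.add_le_add_left (Set.ncard_union_le _ _) _

lemma split (i : ℕ) : cntX WS i = cntX XP1 i + cntX XA0 i := by
  unfold cntX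
  have hf1 : {l : List Lt | l ∈ XP1 ∧ weight l = i}.Finite :=
    (fin_w i).subset (fun l hl => ⟨hl.1.1, hl.2⟩)
  have hf2 : {l : List Lt | l ∈ XA0 ∧ weight l = i}.Finite :=
    (fin_w i).subset (fun l hl => ⟨hl.1.1, hl.2⟩)
  rw [← Set.ncard_union_eq ?_ hf1 hf2]
  · congr 1
    ext l
    constructor
    · intro hl
      by_cases h : 1 ≤ l.countP (fun x => x.1)
      · exact Or.inl ⟨⟨hl.1, h⟩, hl.2⟩
      · refine Or.inr ⟨⟨hl.1, ?_⟩, hl.2⟩
        have h0 : l.countP (fun x => x.1) = 0 := by omega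
        rw [List.countP_eq_zero] at h0
        intro x hx
        have := h0 x hx
        simpa using this
    · rintro (hl | hl)
      · exact ⟨hl.1.1, hl.2⟩
      · exact ⟨hl.1.1, hl.2⟩
  · rw [Set.disjoint_left]
    intro l hl hl'
    have h1 : 1 ≤ l.countP (fun x => x.1) := hl.1.2
    have h2 : ∀ x ∈ l, x.1 = false := hl'.1.2
    have h0 : l.countP (fun x => x.1) = 0 := by
      rw [List.countP_eq_zero]
      intro x hx
      simp [h2 x hx]
    omega

theorem main (h1 : S_lim1) (h0 : S_lim0) (hf : S_few) : S_lim4 := by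
  have hal : ∀ i : ℕ, 0 < al ^ i := fun i => pow_pos al_pos i
  constructor
  · have hlow : Tendsto (fun i : ℕ => (cntX XU i : ℝ) / al ^ i -
        ((({l : List Lt | NZ l ∧ l.countP (fun x => x.1) < 4 ∧
          weight l = i}.ncard : ℕ) : ℝ) / al ^ i +
        (({l : List Lt | NZ l ∧ l.countP (fun x => x.2) < 4 ∧
          weight l = i}.ncard : ℕ) : ℝ) / al ^ i)) atTop (nhds (1 / 2)) := by
      have := h1.2.1.sub (hf.1.add hf.2)
      simpa using this
    refine tendsto_of_tendsto_of_tendsto_of_le_of_le hlow h1.2.1 ?_ ?_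
    · intro i
      have h := lower i
      have h' : (cntX XU i : ℝ) ≤ (cntX XU4 i : ℝ) +
        ((({l : List Lt | NZ l ∧ l.countP (fun x => x.1) < 4 ∧
          weight l = i}.ncard : ℕ) : ℝ) +
        (({l : List Lt | NZ l ∧ l.countP (fun x => x.2) < 4 ∧
          weight l = i}.ncard : ℕ) : ℝ)) := by exact_mod_cast h
      show (cntX XU i : ℝ) / al ^ i -
        ((({l : List Lt | NZ l ∧ l.countP (fun x => x.1) < 4 ∧
          weight l = i}.ncard : ℕ) : ℝ) / al ^ i +
        (({l : List Lt | NZ l ∧ l.countP (fun x => x.2) < 4 ∧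
          weight l = i}.ncard : ℕ) : ℝ) / al ^ i) ≤ (cntX XU4 i : ℝ) / al ^ i
      rw [← add_div, ← sub_div]
      exact div_le_div_of_nonneg_right (by linarith) (hal i).le
    · intro i
      show (cntX XU4 i : ℝ) / al ^ i ≤ (cntX XU i : ℝ) / al ^ i
      exact div_le_div_of_nonneg_right (by exact_mod_cast upper i) (hal i).le
  · have h := h1.1.sub h0.1
    rw [sub_zero] at h
    refine h.congr ?_
    intro i
    have hs : (cntX WS i : ℝ) = (cntX XP1 i : ℝ) + (cntX XA0 i : ℝ) := by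
      exact_mod_cast split i
    rw [hs]
    ring

end Pool.Agent.W557.C6.Lim4
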